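import Pool.Agent.Y546.WQ.Stm6
import Pool.Agent.Y125.WQ.Base

/-!
# Project RT (helper546), KTOW: norms of ideal squares to the subfields of two-power index are
squares, relative version (adaptation of helper683's `Pool.Agent.Y683.WQ.TOW`)
-/

set_option autoImplicit false

namespace Pool.Agent.Y837.WQ

open NumberField IsDedekindDomain HeightOneSpectrum
open Pool.Agent.Y546.WQ
open WithZero (exp)

variable {p : ℕ} [Fact p.Prime] {K M : Type} [Field K] [NumberField K] [Field M] [NumberField M]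
  [Algebra K M]

/-- fixed by the elements of exponent `n` -/
def Fx (c : CycK p K M) (n : ℕ) (x : M) : Prop := ∀ t : (ZMod p)ˣ, t ^ n = 1 → c.σ t x = x

/-- totally positive -/
def TP (x : M) : Prop := ∀ φ : M →+* ℂ, ∃ r : ℝ, 0 < r ∧ φ x = (r : ℂ)

/-- the claim for the subfield fixed by the elements of exponent `n` -/
def Cl (c : CycK p K M) (n : ℕ) : Prop :=
  ∀ α : M, α ≠ 0 → Fx c n α → TP α →
    (∀ P : HeightOneSpectrum (𝓞 M), P ≠ c.P0 → ∃ m : ℤ, P.valuation M α = exp (2 * m)) →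
    (∃ m : ℤ, c.P0.valuation M α = exp (2 * n * m)) → ∃ β : M, Fx c n β ∧ α = β ^ 2

/-! ### valuations -/

lemma exists_exp {F : Type} [Field F] [NumberField F] (P : HeightOneSpectrum (𝓞 F)) {x : F}
    (hx : x ≠ 0) : ∃ k : ℤ, P.valuation F x = exp k := by
  have h : P.valuation F x ≠ 0 := (Valuation.ne_zero_iff _).2 hx
  exact ⟨WithZero.log (P.valuation F x), (WithZero.exp_log h).symm⟩

lemma exp_inj' {a b : ℤ} (h : (exp a : WithZero (Multiplicative ℤ)) = exp b) : a = b :=
  WithZero.exp_injective h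

/-! ### the action -/

/-- the ring isomorphism of the integers induced by `σ t` -/
noncomputable def rsK (c : CycK p K M) (t : (ZMod p)ˣ) : 𝓞 M ≃+* 𝓞 M :=
  RingOfIntegers.mapRingEquiv (c.σ t).toRingEquiv

/-- the preimage of a prime ideal under `σ t` -/
noncomputable def actK (c : CycK p K M) (t : (ZMod p)ˣ) (P : HeightOneSpectrum (𝓞 M)) :
    HeightOneSpectrum (𝓞 M) where
  asIdeal := P.asIdeal.comap (rsK c t : 𝓞 M →+* 𝓞 M)
  isPrime := P.isPrime.comap _
  ne_bot := by
    intro h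
    apply P.ne_bot
    rw [eq_bot_iff]
    intro x hx
    have h1 : (rsK c t).symm x ∈ P.asIdeal.comap (rsK c t : 𝓞 M →+* 𝓞 M) := by
      rw [Ideal.mem_comap]
      simpa using hx
    rw [h, Ideal.mem_bot] at h1
    rw [Ideal.mem_bot]
    simpa using congrArg (rsK c t) h1

lemma mem_actK (c : CycK p K M) (t : (ZMod p)ˣ) (P : HeightOneSpectrum (𝓞 M)) (y : 𝓞 M) :
    y ∈ (actK c t P).asIdeal ↔ rsK c t y ∈ P.asIdeal := Iff.rfl

lemma actK_pow (c : CycK p K M) (t : (ZMod p)ˣ) (P : HeightOneSpectrum (𝓞 M)) (n : ℕ) (y : 𝓞 M) :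
    y ∈ (actK c t P).asIdeal ^ n ↔ rsK c t y ∈ P.asIdeal ^ n := by
  have h1 : (actK c t P).asIdeal = P.asIdeal.map (rsK c t).symm := by
    rw [Ideal.map_symm]; rfl
  rw [h1, ← Ideal.map_pow, Ideal.map_symm, Ideal.mem_comap]

lemma intVal_actK (c : CycK p K M) (t : (ZMod p)ˣ) (P : HeightOneSpectrum (𝓞 M)) (y : 𝓞 M) :
    (actK c t P).intValuation y = P.intValuation (rsK c t y) := by
  apply Pool.Agent.Y125.WQ.val_ext (intValuation_le_one _ _) (intValuation_le_one _ _)
  intro n
  rw [intValuation_le_pow_iff_mem, intValuation_le_pow_iff_mem, actK_pow]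

/-- `v_(σ⁻¹ P)(y) = v_P(σ y)` -/
lemma val_actK (c : CycK p K M) (t : (ZMod p)ˣ) (P : HeightOneSpectrum (𝓞 M)) (y : M) :
    (actK c t P).valuation M y = P.valuation M (c.σ t y) := by
  obtain ⟨a, b, hb, rfl⟩ := IsFractionRing.div_surjective (A := 𝓞 M) y
  rw [map_div₀, map_div₀, map_div₀]
  have h1 : ∀ a : 𝓞 M, (actK c t P).valuation M (algebraMap (𝓞 M) M a) =
      P.valuation M (c.σ t (algebraMap (𝓞 M) M a)) := by
    intro a
    have h2 : c.σ t (algebraMap (𝓞 M) M a) = algebraMap (𝓞 M) M (rsK c t a) := rfl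
    rw [h2, valuation_of_algebraMap, valuation_of_algebraMap, intVal_actK]
  rw [h1, h1]

lemma sig_sig (c : CycK p K M) (s t : (ZMod p)ˣ) (x : M) :
    c.σ s (c.σ t x) = c.σ (s * t) x := by
  rw [map_mul]
  rfl

omit [Fact p.Prime] in
lemma sig_one (c : CycK p K M) (x : M) : c.σ 1 x = x := by
  rw [map_one]
  rfl

lemma rsK_rsK (c : CycK p K M) (s t : (ZMod p)ˣ) (y : 𝓞 M) :
    rsK c t (rsK c s y) = rsK c (t * s) y := by
  apply RingOfIntegers.coe_injective
  show c.σ t (c.σ s (y : M)) = c.σ (t * s) (y : M)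
  rw [sig_sig]

lemma actK_actK (c : CycK p K M) (s t : (ZMod p)ˣ) (P : HeightOneSpectrum (𝓞 M)) :
    actK c s (actK c t P) = actK c (t * s) P := by
  ext y
  rw [mem_actK, mem_actK, mem_actK, rsK_rsK]

lemma actK_one (c : CycK p K M) (P : HeightOneSpectrum (𝓞 M)) : actK c 1 P = P := by
  ext y
  rw [mem_actK]
  have : rsK c 1 y = y := by
    apply RingOfIntegers.coe_injective
    show c.σ 1 (y : M) = (y : M)
    rw [sig_one]
  rw [this]

lemma actK_P0 (c : CycK p K M) (t : (ZMod p)ˣ) : actK c t c.P0 = c.P0 := by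
  apply c.uniq
  rw [mem_actK, map_natCast]
  exact c.mem

lemma actK_ne (c : CycK p K M) (t : (ZMod p)ˣ) {P : HeightOneSpectrum (𝓞 M)}
    (hP : P ≠ c.P0) : actK c t P ≠ c.P0 := by
  intro h
  apply hP
  have h1 := actK_actK c t⁻¹ t P
  rw [h, actK_P0, mul_inv_cancel, actK_one] at h1
  exact h1.symm

omit [Fact p.Prime] in
/-- two homomorphisms which agree on `K` and `z` agree -/
lemma hom_extK (c : CycK p K M) {f g : M →+* ℂ} (hK : ∀ a : K, f (algebraMap K M a) =
    g (algebraMap K M a)) (h : f c.z = g c.z) : f = g := by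
  ext y
  obtain ⟨P, hP⟩ := c.gen y
  rw [hP, Polynomial.aeval_def, Polynomial.hom_eval₂, Polynomial.hom_eval₂, h]
  congr 1
  ext a
  exact hK a

/-- complex conjugation -/
lemma conj_eqK (c : CycK p K M) (hreal : Real' K) (φ : M →+* ℂ) (y : M) :
    (starRingEnd ℂ) (φ y) = φ (c.σ (-1) y) := by
  have hp : p.Prime := Fact.out
  have h1 : ((starRingEnd ℂ).comp φ) = φ.comp (c.σ (-1) : M →+* M) := by
    apply hom_extK c
    · intro a
      obtain ⟨r, hr⟩ := hreal (φ.comp (algebraMap K M)) a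
      have h2 : φ (algebraMap K M a) = (r : ℂ) := hr
      show (starRingEnd ℂ) (φ (algebraMap K M a)) = φ (c.σ (-1) (algebraMap K M a))
      rw [(c.σ (-1)).commutes, h2, Complex.conj_ofReal]
    have hz : c.z ≠ 0 := c.prim.ne_zero hp.ne_zero
    have h3 : φ c.z ≠ 0 := by
      rw [Ne, map_eq_zero]; exact hz
    have h2 : (starRingEnd ℂ) (φ c.z) * φ c.z = 1 := by
      have h4 : ‖φ c.z‖ = 1 := by
        have h5 : (φ c.z) ^ p = 1 := by rw [← map_pow, c.prim.pow_eq_one, map_one]
        exact Complex.norm_eq_one_of_pow_eq_one h5 hp.ne_zero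
      rw [mul_comm, Complex.mul_conj, Complex.normSq_eq_norm_sq, h4]
      simp
    have h6 : φ (c.σ (-1) c.z) * φ c.z = 1 := by
      rw [← map_mul, c.σ_z]
      have h7 : ((-1 : (ZMod p)ˣ) : ZMod p).val + 1 = p := by
        rw [Units.val_neg, Units.val_one]
        obtain ⟨k, hk⟩ := Nat.exists_eq_succ_of_ne_zero hp.ne_zero
        subst hk
        rw [ZMod.val_neg_one]
      rw [← pow_succ, h7, c.prim.pow_eq_one, map_one]
    have h8 := h2.trans h6.symm
    exact mul_right_cancel₀ h3 h8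
  exact congrArg (fun f => f y) h1

/-- an element fixed by complex conjugation is real -/
lemma real_of_fixed (c : CycK p K M) (hreal : Real' K) {x : M} (h : c.σ (-1) x = x)
    (φ : M →+* ℂ) : ∃ r : ℝ, φ x = (r : ℂ) := by
  have h1 := conj_eqK c hreal φ x
  rw [h] at h1
  exact Complex.conj_eq_iff_real.1 h1

lemma sigma_injK (c : CycK p K M) : Function.Injective c.σ := by
  intro s t h
  have h1 : c.z ^ (s : ZMod p).val = c.z ^ (t : ZMod p).val := by
    rw [← c.σ_z, ← c.σ_z, h]
  have h3 := c.prim.pow_inj (ZMod.val_lt _) (ZMod.val_lt _) h1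
  exact Units.ext (ZMod.val_injective p h3)

/-- an element of the smaller fixed group that moves something -/
lemma exists_moved (c : CycK p K M) {n : ℕ} {g : (ZMod p)ˣ} (hg : g ^ n ≠ 1) :
    ∃ x : M, Fx c n x ∧ c.σ g x ≠ x := by
  by_contra hcon
  push Not at hcon
  have hfd : FiniteDimensional K M := Module.Finite.of_restrictScalars_finite ℚ K M
  set H : Subgroup (M ≃ₐ[K] M) := Subgroup.map c.σ (powMonoidHom n : (ZMod p)ˣ →* (ZMod p)ˣ).ker
    with hH
  have h1 : c.σ g ∈ IntermediateField.fixingSubgroup (IntermediateField.fixedField H) := by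
    rw [IntermediateField.mem_fixingSubgroup_iff]
    intro x hx
    apply hcon
    intro t ht
    rw [IntermediateField.mem_fixedField_iff] at hx
    exact hx (c.σ t) ⟨t, ht, rfl⟩
  rw [IntermediateField.fixingSubgroup_fixedField] at h1
  obtain ⟨t, ht, hte⟩ := h1
  have h2 := sigma_injK c hte
  rw [h2] at ht
  exact hg ht

omit [NumberField K] in
/-- an element of order `d` -/
lemma exists_order (p : ℕ) [Fact p.Prime] {d : ℕ} (hd : d ∣ p - 1) :
    ∃ g : (ZMod p)ˣ, orderOf g = d := by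
  obtain ⟨t, ht⟩ := IsCyclic.exists_generator (α := (ZMod p)ˣ)
  have h1 : orderOf t = p - 1 := by
    rw [orderOf_eq_card_of_forall_mem_zpowers ht, Nat.card_eq_fintype_card,
      ZMod.card_units_eq_totient, Nat.totient_prime Fact.out]
  have hp1 : p - 1 ≠ 0 := by
    have := (Fact.out : p.Prime).two_le
    omega
  obtain ⟨e, he⟩ := hd
  have he0 : e ≠ 0 := by
    rintro rfl
    exact hp1 (by rw [he, mul_zero])
  refine ⟨t ^ e, ?_⟩
  rw [orderOf_pow_of_dvd he0 (by rw [h1, he]; exact Dvd.intro_left d rfl), h1, he,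
    Nat.mul_div_cancel _ (Nat.pos_of_ne_zero he0)]

/-! ### the bottom -/

lemma top (c : CycK p K M) (hN : Nar K) : Cl c (p - 1) := by
  intro α hα hF hT hev hP
  have hpp : p.Prime := Fact.out
  obtain ⟨a, ha⟩ := c.fix α fun t => hF t (ZMod.units_pow_card_sub_one_eq_one p t)
  have ha0 : a ≠ 0 := by
    rintro rfl
    rw [map_zero] at ha
    exact hα ha.symm
  have hfd : FiniteDimensional K M := Module.Finite.of_restrictScalars_finite ℚ K M
  have hp1 : ((p - 1 : ℕ) : ℤ) ≠ 0 := by
    have := hpp.two_le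
    omega
  obtain ⟨b, hb⟩ := hN a ha0
    (by
      intro φ
      obtain ⟨r, hr, h1⟩ := hT (ComplexEmbedding.lift M φ)
      rw [← ha, ComplexEmbedding.lift_algebraMap_apply] at h1
      rw [h1, Complex.ofReal_re]
      exact hr)
    (by
      intro v
      by_cases hv : ((p : ℕ) : 𝓞 K) ∈ v.asIdeal
      · obtain ⟨m, hm⟩ := hP
        obtain ⟨k, hk⟩ := exists_exp v ha0
        rw [← ha, c.dnp v hv, hk, ← WithZero.exp_nsmul] at hm
        have h1 := exp_inj' hm
        rw [nsmul_eq_mul] at h1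
        refine ⟨m, ?_⟩
        rw [hk]
        congr 1
        apply mul_left_cancel₀ hp1
        linarith
      · obtain ⟨P, hPp, hPv⟩ := c.dnq v hv
        have hPne : P ≠ c.P0 := by
          rintro rfl
          exact hPp c.mem
        obtain ⟨m, hm⟩ := hev P hPne
        rw [← ha, hPv] at hm
        exact ⟨m, hm⟩)
  refine ⟨algebraMap K M b, fun t _ => (c.σ t).commutes b, ?_⟩
  rw [← ha, hb, map_pow]

/-! ### the step -/

lemma sq_eq_one_iff_of_prime {u : ZMod p} (h : u ^ 2 = 1) : u = 1 ∨ u = -1 := by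
  have h1 : (u - 1) * (u + 1) = 0 := by linear_combination h
  rcases mul_eq_zero.1 h1 with h2 | h2
  · exact Or.inl (sub_eq_zero.1 h2)
  · exact Or.inr (eq_neg_of_add_eq_zero_left h2)

lemma step (hR : S_KRAM) (hp2 : p ≠ 2) (c : CycK p K M) (hreal' : Real' K) {n : ℕ}
    (hn : Even n) (hn0 : 0 < n) (hdvd : 2 * n ∣ p - 1) (H : Cl c (2 * n)) : Cl c n := by
  intro α hα hF hT hev hP
  obtain ⟨g, hg⟩ := exists_order p hdvd
  have hg2n : g ^ (2 * n) = 1 := by rw [← hg]; exact pow_orderOf_eq_one g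
  have hsq : ∀ u : (ZMod p)ˣ, u ^ 2 = 1 → u = 1 ∨ u = -1 := by
    intro u hu
    have h1 : ((u : ZMod p)) ^ 2 = 1 := by
      rw [← Units.val_pow_eq_pow_val, hu, Units.val_one]
    rcases sq_eq_one_iff_of_prime h1 with h2 | h2
    · exact Or.inl (Units.ext h2)
    · exact Or.inr (Units.ext (by rw [h2, Units.val_neg, Units.val_one]))
  have hgn1 : g ^ n ≠ 1 := by
    intro h
    have h1 := orderOf_dvd_of_pow_eq_one h
    rw [hg] at h1
    have := Nat.le_of_dvd hn0 h1
    omega
  have hgn : g ^ n = -1 := by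
    rcases hsq (g ^ n) (by rw [← pow_mul, mul_comm n 2, hg2n]) with h | h
    · exact absurd h hgn1
    · exact h
  have hcov : ∀ t : (ZMod p)ˣ, t ^ (2 * n) = 1 → t ^ n = 1 ∨ (g⁻¹ * t) ^ n = 1 := by
    intro t ht
    rcases hsq (t ^ n) (by rw [← pow_mul, mul_comm n 2, ht]) with h | h
    · exact Or.inl h
    · refine Or.inr ?_
      rw [mul_pow, inv_pow, hgn, h]
      exact inv_mul_cancel _
  have hneg : ((-1 : (ZMod p)ˣ)) ^ n = 1 := hn.neg_one_pow
  have hss : ∀ x, Fx c n x → c.σ g (c.σ g x) = x := by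
    intro x hx
    rw [sig_sig]
    apply hx
    rw [← sq, ← pow_mul, hg2n]
  have hsF : ∀ x, Fx c n x → Fx c n (c.σ g x) := by
    intro x hx t ht
    rw [sig_sig, mul_comm, ← sig_sig, hx t ht]
  have hup : ∀ x, Fx c n x → c.σ g x = x → Fx c (2 * n) x := by
    intro x hx hgx t ht
    rcases hcov t ht with h | h
    · exact hx t h
    · have h1 : t = g * (g⁻¹ * t) := by rw [mul_inv_cancel_left]
      rw [h1, ← sig_sig, hx _ h, hgx]
  have hdown : ∀ x, Fx c (2 * n) x → Fx c n x := by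
    intro x hx t ht
    exact hx t (by rw [mul_comm, pow_mul, ht, one_pow])
  have hFmul : ∀ (k : ℕ) (x y : M), Fx c k x → Fx c k y → Fx c k (x * y) := by
    intro k x y hx hy t ht
    rw [map_mul, hx t ht, hy t ht]
  -- the norm
  obtain ⟨b, hbF, hb⟩ := H (α * c.σ g α) (mul_ne_zero hα (by rw [Ne, map_eq_zero]; exact hα))
    (hup _ (hFmul n _ _ hF (hsF _ hF)) (by rw [map_mul, hss α hF, mul_comm]))
    (by
      intro φ
      obtain ⟨x, hx, h1⟩ := hT φ
      obtain ⟨y, hy, h2⟩ := hT (φ.comp (c.σ g : M →+* M))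
      refine ⟨x * y, mul_pos hx hy, ?_⟩
      rw [map_mul, h1]
      have h3 : φ (c.σ g α) = (y : ℂ) := h2
      rw [h3]
      push_cast
      rfl)
    (by
      intro P hPne
      obtain ⟨m, hm⟩ := hev P hPne
      obtain ⟨m', hm'⟩ := hev (actK c g P) (actK_ne c g hPne)
      refine ⟨m + m', ?_⟩
      rw [map_mul, hm, ← val_actK, hm', ← WithZero.exp_add]
      congr 1
      ring)
    (by
      obtain ⟨m, hm⟩ := hP
      refine ⟨m, ?_⟩
      rw [map_mul, ← val_actK, actK_P0, hm, ← WithZero.exp_add]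
      congr 1
      push_cast
      ring)
  have hσα : c.σ g α ≠ 0 := by rw [Ne, map_eq_zero]; exact hα
  have hb0 : b ≠ 0 := by
    rintro rfl
    rw [zero_pow two_ne_zero] at hb
    exact mul_ne_zero hα hσα hb
  have hσb : c.σ g b = b := hbF g hg2n
  -- Hilbert 90
  obtain ⟨r, w, hr0, hw0, hrw, hrF, hwF⟩ : ∃ r w : M, r ≠ 0 ∧ w ≠ 0 ∧ α = r * w ^ 2 ∧
      Fx c (2 * n) r ∧ Fx c n w := by
    by_cases hu : α = -b
    · refine ⟨α, 1, hα, one_ne_zero, by ring, hup α hF ?_, fun t _ => map_one _⟩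
      rw [hu, map_neg, hσb]
    · have hw : α + b ≠ 0 := fun h => hu (eq_neg_of_add_eq_zero_left h)
      have hw' : c.σ g α + b ≠ 0 := by
        intro h
        apply hw
        have h1 : c.σ g (α + b) = 0 := by rw [map_add, hσb, h]
        rwa [map_eq_zero] at h1
      refine ⟨b ^ 3 / ((α + b) * (c.σ g α + b)), (α + b) / b, ?_, div_ne_zero hw hb0, ?_, ?_, ?_⟩
      · exact div_ne_zero (pow_ne_zero 3 hb0) (mul_ne_zero hw hw')
      · have h1 : (α + b) * (c.σ g α + b) * b ^ 2 ≠ 0 :=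
          mul_ne_zero (mul_ne_zero hw hw') (pow_ne_zero 2 hb0)
        rw [div_pow, div_mul_div_comm, eq_div_iff h1]
        linear_combination (α + b) * b ^ 2 * hb
      · apply hup
        · intro t ht
          have h1 := hdown b hbF t ht
          have h2 := hF t ht
          have h3 := hsF α hF t ht
          rw [map_div₀, map_pow, map_mul, map_add, map_add, h1, h2, h3]
        · rw [map_div₀, map_pow, map_mul, map_add, map_add, hσb, hss α hF, mul_comm]
      · intro t ht
        rw [map_div₀, map_add, hF t ht, hdown b hbF t ht]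
  have hreal : ∀ x : M, Fx c n x → ∀ φ : M →+* ℂ, ∃ y : ℝ, φ x = (y : ℂ) := fun x hx φ =>
    real_of_fixed c hreal' (hx (-1) hneg) φ
  have hrT : TP r := by
    intro φ
    obtain ⟨x, hx, h1⟩ := hT φ
    obtain ⟨y, hy⟩ := hreal w hwF φ
    have hy0 : y ≠ 0 := by
      rintro rfl
      have : φ w ≠ 0 := by rw [Ne, map_eq_zero]; exact hw0
      apply this
      rw [hy]
      simp
    refine ⟨x / y ^ 2, by positivity, ?_⟩
    have h2 : φ α = φ r * (φ w) ^ 2 := by rw [hrw, map_mul, map_pow]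
    rw [h1, hy] at h2
    have hyc : (y : ℂ) ^ 2 ≠ 0 := pow_ne_zero 2 (by exact_mod_cast hy0)
    push_cast
    rw [eq_div_iff hyc]
    exact h2.symm
  have hrev : ∀ P : HeightOneSpectrum (𝓞 M), P ≠ c.P0 → ∃ m : ℤ, P.valuation M r = exp (2 * m) := by
    intro P hPne
    obtain ⟨m, hm⟩ := hev P hPne
    obtain ⟨k, hk⟩ := exists_exp P hw0
    obtain ⟨l, hl⟩ := exists_exp P hr0
    rw [hrw, map_mul, map_pow, hk, hl, ← WithZero.exp_nsmul, ← WithZero.exp_add] at hm
    have h1 := exp_inj' hm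
    rw [nsmul_eq_mul] at h1
    push_cast at h1
    refine ⟨m - k, ?_⟩
    rw [hl]
    congr 1
    linarith
  obtain ⟨k, hk⟩ := exists_exp c.P0 hr0
  have hR3 := hR p hp2 K M c
  have hk1 := hR3 r g 1 k hr0 (Or.inl rfl) (by rw [hrF g hg2n]; push_cast; ring) hk
  have hk2 : (2 * n : ℤ) ∣ k := by
    have h1 : g ^ k = 1 := Units.ext (by rw [hk1, Units.val_one]; push_cast; rfl)
    have h2 := orderOf_dvd_iff_zpow_eq_one.2 h1
    rw [hg] at h2
    exact_mod_cast h2
  obtain ⟨l, hl⟩ := hk2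
  rcases Int.even_or_odd l with ⟨m, hm⟩ | ⟨m, hm⟩
  · obtain ⟨ρ, hρF, hρ⟩ := H r hr0 hrF hrT hrev ⟨m, by
      rw [hk, hl, hm]
      congr 1
      push_cast
      ring⟩
    refine ⟨ρ * w, hFmul n _ _ (hdown ρ hρF) hwF, ?_⟩
    rw [hrw, hρ]
    ring
  · -- the element of odd valuation
    obtain ⟨x, hxF, hxg⟩ := exists_moved c hgn1
    set θ : M := x - c.σ g x with hθ
    have hθ0 : θ ≠ 0 := fun h => hxg (sub_eq_zero.1 h).symm
    have hθF : Fx c n θ := by
      intro t ht
      rw [hθ, map_sub, hxF t ht, hsF x hxF t ht]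
    have hθg : c.σ g θ = -θ := by
      rw [hθ, map_sub, hss x hxF]
      ring
    obtain ⟨j, hj⟩ := exists_exp c.P0 hθ0
    have hj1 := hR3 θ g (-1) j hθ0 (Or.inr rfl) (by rw [hθg]; push_cast; ring) hj
    have hj2 : (2 * n : ℤ) ∣ j - n := by
      have h1 : g ^ (j - n) = 1 := by
        rw [zpow_sub, zpow_natCast, hgn]
        have h2 : g ^ j = -1 := Units.ext (by
          rw [hj1, Units.val_neg, Units.val_one]
          push_cast
          rfl)
        rw [h2]
        exact mul_inv_cancel _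
      have h2 := orderOf_dvd_iff_zpow_eq_one.2 h1
      rw [hg] at h2
      exact_mod_cast h2
    obtain ⟨i, hi⟩ := hj2
    have hθ2 : Fx c (2 * n) (θ ^ 2) := by
      apply hup
      · intro t ht
        rw [map_pow, hθF t ht]
      · rw [map_pow, hθg, neg_sq]
    obtain ⟨ρ, hρF, hρ⟩ := H (r * θ ^ 2) (mul_ne_zero hr0 (pow_ne_zero 2 hθ0))
      (hFmul _ _ _ hrF hθ2)
      (by
        intro φ
        obtain ⟨y, hy, h1⟩ := hrT φ
        obtain ⟨u, hu⟩ := hreal θ hθF φ
        have hu0 : u ≠ 0 := by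
          rintro rfl
          have : φ θ ≠ 0 := by rw [Ne, map_eq_zero]; exact hθ0
          apply this
          rw [hu]
          simp
        refine ⟨y * u ^ 2, by positivity, ?_⟩
        rw [map_mul, map_pow, h1, hu]
        push_cast
        ring)
      (by
        intro P hPne
        obtain ⟨m', hm'⟩ := hrev P hPne
        obtain ⟨k', hk'⟩ := exists_exp P hθ0
        refine ⟨m' + k', ?_⟩
        rw [map_mul, map_pow, hm', hk', ← WithZero.exp_nsmul, ← WithZero.exp_add]
        congr 1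
        rw [nsmul_eq_mul]
        push_cast
        ring)
      (by
        refine ⟨m + i + 1, ?_⟩
        rw [map_mul, map_pow, hk, hj, ← WithZero.exp_nsmul, ← WithZero.exp_add]
        congr 1
        rw [nsmul_eq_mul, hl, hm]
        have h1 : j = 2 * n * i + n := by linarith
        rw [h1]
        push_cast
        ring)
    refine ⟨ρ * w / θ, ?_, ?_⟩
    · intro t ht
      rw [map_div₀, map_mul, hdown ρ hρF t ht, hwF t ht, hθF t ht]
    · rw [div_pow, eq_div_iff (pow_ne_zero 2 hθ0), mul_pow, ← hρ, hrw]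
      ring

/-! ### all levels -/

lemma levels (hR : S_KRAM) (hp2 : p ≠ 2) (c : CycK p K M) (hreal' : Real' K) (hN : Nar K)
    {s q : ℕ} (hq : 0 < q) (hs : p - 1 = 2 ^ s * q) :
    ∀ i : ℕ, i < s → Cl c (2 ^ (s - i) * q) := by
  intro i
  induction i with
  | zero =>
    intro _
    rw [Nat.sub_zero, ← hs]
    exact top c hN
  | succ i ih =>
    intro hi
    have h1 := ih (by omega)
    have h2 : 2 ^ (s - i) * q = 2 * (2 ^ (s - (i + 1)) * q) := by
      have : s - i = (s - (i + 1)) + 1 := by omega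
      rw [this, pow_succ]
      ring
    rw [h2] at h1
    refine step hR hp2 c hreal' ?_ (by positivity) ?_ h1
    · have : s - (i + 1) = (s - (i + 1) - 1) + 1 := by omega
      rw [this, pow_succ]
      exact ⟨2 ^ (s - (i + 1) - 1) * q, by ring⟩
    · rw [← h2, hs]
      exact Nat.mul_dvd_mul_right (pow_dvd_pow 2 (Nat.sub_le s i)) q

lemma exp_prod {ι : Type*} (P : HeightOneSpectrum (𝓞 M)) (T : Finset ι) (f : ι → M)
    (h : ∀ t ∈ T, ∃ m : ℤ, P.valuation M (f t) = exp (2 * m)) :
    ∃ m : ℤ, P.valuation M (∏ t ∈ T, f t) = exp (2 * m) := by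
  classical
  induction T using Finset.induction_on with
  | empty => exact ⟨0, by simp⟩
  | insert a T ha ih =>
    obtain ⟨m, hm⟩ := ih fun t ht => h t (Finset.mem_insert_of_mem ht)
    obtain ⟨m', hm'⟩ := h a (Finset.mem_insert_self a T)
    refine ⟨m' + m, ?_⟩
    rw [Finset.prod_insert ha, map_mul, hm, hm', ← WithZero.exp_add]
    congr 1
    ring

theorem mainKTOW (hR : S_KRAM) : S_KTOW := by
  intro p _ hp2 s q hq hs K M _ _ _ _ _ c hreal' hN α hα hev hP
  classical
  have hpp : p.Prime := Fact.out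
  have hq0 : 0 < q := hq.pos
  have hs0 : 0 < s := by
    rcases Nat.eq_zero_or_pos s with h | h
    · exfalso
      rw [h, pow_zero, one_mul] at hs
      have h1 : Odd p := hpp.odd_of_ne_two hp2
      obtain ⟨a, ha⟩ := h1
      obtain ⟨b, hb⟩ := hq
      omega
    · exact h
  have hCl : Cl c (2 * q) := by
    have h1 := levels hR hp2 c hreal' hN hq0 hs (s - 1) (by omega)
    have h2 : s - (s - 1) = 1 := by omega
    rwa [h2, pow_one] at h1
  set T : Finset (ZMod p)ˣ := Finset.univ.filter (fun t : (ZMod p)ˣ => t ^ (2 * q) = 1) with hT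
  set T1 : Finset (ZMod p)ˣ := Finset.univ.filter (fun t : (ZMod p)ˣ => t ^ q = 1) with hT1
  have hsplit : ∏ t ∈ T, c.σ t α = (∏ t ∈ T1, c.σ t α) * c.σ (-1) (∏ t ∈ T1, c.σ t α) := by
    rw [map_prod, ← Finset.prod_filter_mul_prod_filter_not T (fun t : (ZMod p)ˣ => t ^ q = 1)]
    congr 1
    · refine Finset.prod_congr ?_ fun _ _ => rfl
      ext t
      simp only [hT, hT1, Finset.mem_filter, Finset.mem_univ, true_and]
      constructor
      · exact fun h => h.2
      · exact fun h => ⟨by rw [mul_comm, pow_mul, h, one_pow], h⟩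
    · symm
      refine Finset.prod_bij (fun t _ => -t) ?_ ?_ ?_ ?_
      · intro t ht
        simp only [hT, hT1, Finset.mem_filter, Finset.mem_univ, true_and] at ht ⊢
        rw [mul_comm, pow_mul, hq.neg_pow, ht]
        refine ⟨by rw [neg_sq, one_pow], fun h => ?_⟩
        have h1 := congrArg (Units.val) h
        rw [Units.val_neg, Units.val_one] at h1
        have h2 : (2 : ZMod p) = 0 := by linear_combination -h1
        have h3 : ((2 : ℕ) : ZMod p) = 0 := by exact_mod_cast h2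
        rw [ZMod.natCast_eq_zero_iff] at h3
        exact hp2 ((Nat.prime_dvd_prime_iff_eq hpp Nat.prime_two).1 h3)
      · intro a _ b _ h
        exact neg_injective h
      · intro t ht
        simp only [hT, hT1, Finset.mem_filter, Finset.mem_univ, true_and] at ht ⊢
        refine ⟨-t, ?_, neg_neg t⟩
        obtain ⟨ht1, ht2⟩ := ht
        rw [hq.neg_pow]
        have h1 : ((t ^ q : (ZMod p)ˣ) : ZMod p) ^ 2 = 1 := by
          rw [← Units.val_pow_eq_pow_val, ← pow_mul, mul_comm q 2, ht1, Units.val_one]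
        rcases sq_eq_one_iff_of_prime h1 with h2 | h2
        · exact absurd (Units.ext h2) ht2
        · apply Units.ext
          rw [Units.val_neg, h2, neg_neg, Units.val_one]
      · intro t _
        rw [sig_sig]
        congr 2
        rw [neg_one_mul]
  have hσ0 : ∀ t, c.σ t α ≠ 0 := fun t => by rw [Ne, map_eq_zero]; exact hα
  have hA0 : (∏ t ∈ T1, c.σ t α) ≠ 0 := Finset.prod_ne_zero_iff.2 fun t _ => hσ0 t
  obtain ⟨β, -, hβ⟩ := hCl (∏ t ∈ T, c.σ t α) (Finset.prod_ne_zero_iff.2 fun t _ => hσ0 t)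
    (by
      intro u hu
      rw [map_prod]
      refine Finset.prod_bij (fun t _ => u * t) ?_ ?_ ?_ ?_
      · intro t ht
        simp only [hT, Finset.mem_filter, Finset.mem_univ, true_and] at ht ⊢
        rw [mul_pow, hu, ht, one_mul]
      · intro a _ b _ h
        exact mul_left_cancel h
      · intro t ht
        simp only [hT, Finset.mem_filter, Finset.mem_univ, true_and] at ht ⊢
        refine ⟨u⁻¹ * t, ?_, mul_inv_cancel_left u t⟩
        rw [mul_pow, inv_pow, hu, ht, inv_one, one_mul]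
      · intro t _
        rw [sig_sig])
    (by
      intro φ
      refine ⟨‖φ (∏ t ∈ T1, c.σ t α)‖ ^ 2, ?_, ?_⟩
      · have : φ (∏ t ∈ T1, c.σ t α) ≠ 0 := by rw [Ne, map_eq_zero]; exact hA0
        positivity
      · rw [hsplit, map_mul, ← conj_eqK c hreal', Complex.mul_conj,
          Complex.normSq_eq_norm_sq])
    (by
      intro P _
      refine exp_prod P T _ fun t _ => ?_
      rw [← val_actK]
      exact hev _)
    ⟨0, by
      rw [map_prod, mul_zero, WithZero.exp_zero]
      refine Finset.prod_eq_one fun t _ => ?_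
      rw [← val_actK, actK_P0]
      exact hP⟩
  exact ⟨β, hβ⟩

end Pool.Agent.Y837.WQ
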